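import Pool.Agent.Y996.QH.Stm

/-!
Job QH-TE (helper996), by helper991: a function of small energy in the half-plane.
-/

set_option autoImplicit false

namespace Pool.Agent.Y991.QH

open MeasureTheory Set
open Pool.Agent.Y996.RD
open Pool.Agent.Y996.QH

open scoped ENNReal

/-- the half-plane energy of the radial function around a real point -/
theorem Ph_energyH (a : ℝ) {ρ : ℝ} (hρ : 0 < ρ) (l : ℝ) :
    energyH (Ph (a : ℂ) ρ l) ≤ ENNReal.ofReal (Real.pi * HH l l) := by
  have hpi := Real.pi_pos
  obtain ⟨z0, hz0⟩ : ∃ z0 : ℂ, z0 = (a : ℂ) := ⟨_, rfl⟩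
  have hz0im : z0.im = 0 := by rw [hz0, Complex.ofReal_im]
  rw [← hz0]
  have hS : MeasurableSet {z : ℂ | 0 < z.im} :=
    measurableSet_lt measurable_const Complex.measurable_im
  have hfm : Measurable (fun z : ℂ => ENNReal.ofReal
      (kk l (Real.log (‖z - z0‖ / ρ)) / ‖z - z0‖ ^ 2)) := by
    have h1 : Measurable (fun z : ℂ => ‖z - z0‖) :=
      (continuous_id.sub continuous_const).norm.measurable
    exact ((((kk_cont l).measurable.comp (Real.measurable_log.comp (h1.div_const ρ))).div
      (h1.pow_const 2))).ennreal_ofReal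
  have step1 : energyH (Ph z0 ρ l) ≤ ∫⁻ z in {z : ℂ | 0 < z.im}, ENNReal.ofReal
      (kk l (Real.log (‖z - z0‖ / ρ)) / ‖z - z0‖ ^ 2) := by
    apply lintegral_mono
    intro z
    apply ENNReal.ofReal_le_ofReal
    have h1 := Ph_fderiv z0 hρ l z
    have h2 := kk_nonneg l (Real.log (‖z - z0‖ / ρ))
    have h3 := kk_le_one l (Real.log (‖z - z0‖ / ρ))
    calc ‖fderiv ℝ (Ph z0 ρ l) z‖ ^ 2 ≤ (kk l (Real.log (‖z - z0‖ / ρ)) / ‖z - z0‖) ^ 2 :=
          pow_le_pow_left₀ (norm_nonneg _) h1 2
      _ = kk l (Real.log (‖z - z0‖ / ρ)) ^ 2 / ‖z - z0‖ ^ 2 := div_pow _ _ _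
      _ ≤ _ := by
          apply div_le_div_of_nonneg_right _ (sq_nonneg _)
          nlinarith
  refine step1.trans ?_
  rw [← lintegral_indicator hS, polar_full _ (hfm.indicator hS) z0]
  have step2 : ∫⁻ r in Ioi (0:ℝ), ∫⁻ θ in Ioo (-Real.pi) Real.pi, ENNReal.ofReal r *
      {z : ℂ | 0 < z.im}.indicator (fun z => ENNReal.ofReal
        (kk l (Real.log (‖z - z0‖ / ρ)) / ‖z - z0‖ ^ 2)) (pc z0 r θ) ≤
      ∫⁻ r in Ioi (0:ℝ), ENNReal.ofReal (Real.pi * (kk l (Real.log (r / ρ)) * r⁻¹)) := by
    apply setLIntegral_mono' measurableSet_Ioi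
    intro r hr
    have hr0 : (0:ℝ) < r := hr
    have e : ∀ θ ∈ Ioo (-Real.pi) Real.pi, ENNReal.ofReal r *
        {z : ℂ | 0 < z.im}.indicator (fun z => ENNReal.ofReal
        (kk l (Real.log (‖z - z0‖ / ρ)) / ‖z - z0‖ ^ 2)) (pc z0 r θ) ≤
        (Ioo 0 Real.pi).indicator
          (fun _ => ENNReal.ofReal (kk l (Real.log (r / ρ)) * r⁻¹)) θ := by
      intro θ hθ
      by_cases hp : 0 < (pc z0 r θ).im
      · have hs : 0 < θ := by
          by_contra hcon
          have h0 : pc z0 r θ = z0 + ((r * Real.cos θ : ℝ) : ℂ) +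
              ((r * Real.sin θ : ℝ) : ℂ) * Complex.I := by
            unfold pc
            push_cast
            ring
          have h1 : (pc z0 r θ).im = r * Real.sin θ := by
            rw [h0, Complex.add_im, Complex.add_im, Complex.ofReal_im, hz0im, Complex.mul_im,
              Complex.ofReal_re, Complex.ofReal_im, Complex.I_re, Complex.I_im]
            ring
          have h2 : Real.sin θ ≤ 0 :=
            Real.sin_nonpos_of_nonpos_of_neg_pi_le (not_lt.mp hcon) hθ.1.le
          rw [h1] at hp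
          nlinarith
        rw [indicator_of_mem (show pc z0 r θ ∈ {z : ℂ | 0 < z.im} from hp),
          indicator_of_mem (show θ ∈ Ioo 0 Real.pi from ⟨hs, hθ.2⟩)]
        rw [← dist_eq_norm, dist_pc, abs_of_pos hr0, ← ENNReal.ofReal_mul hr0.le]
        apply le_of_eq
        congr 1
        field_simp
      · rw [indicator_of_notMem (show pc z0 r θ ∉ {z : ℂ | 0 < z.im} from hp), mul_zero]
        exact zero_le
    calc ∫⁻ θ in Ioo (-Real.pi) Real.pi, ENNReal.ofReal r *
        {z : ℂ | 0 < z.im}.indicator (fun z => ENNReal.ofReal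
          (kk l (Real.log (‖z - z0‖ / ρ)) / ‖z - z0‖ ^ 2)) (pc z0 r θ)
        ≤ ∫⁻ θ in Ioo (-Real.pi) Real.pi, (Ioo 0 Real.pi).indicator
          (fun _ => ENNReal.ofReal (kk l (Real.log (r / ρ)) * r⁻¹)) θ :=
          setLIntegral_mono' measurableSet_Ioo e
      _ ≤ ∫⁻ θ, (Ioo 0 Real.pi).indicator
          (fun _ => ENNReal.ofReal (kk l (Real.log (r / ρ)) * r⁻¹)) θ :=
          setLIntegral_le_lintegral _ _
      _ = ENNReal.ofReal (Real.pi * (kk l (Real.log (r / ρ)) * r⁻¹)) := by
          rw [lintegral_indicator measurableSet_Ioo, setLIntegral_const, Real.volume_Ioo,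
            mul_comm, ← ENNReal.ofReal_mul (by linarith)]
          congr 1
          ring
  refine step2.trans ?_
  rcases le_or_gt l 0 with hl | hl
  · simp [kk_small hl]
  · have hle : ρ ≤ ρ * Real.exp l := by
      have := Real.one_le_exp hl.le
      nlinarith
    have hpos : ∀ r ∈ Icc ρ (ρ * Real.exp l), 0 < r := fun r hr => hρ.trans_le hr.1
    have hzero : ∀ r ∈ Ioi (0:ℝ), r ∉ Ioc ρ (ρ * Real.exp l) →
        kk l (Real.log (r / ρ)) = 0 := by
      intro r hr hn
      have hr0 : (0:ℝ) < r := hr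
      rw [Set.mem_Ioc, not_and_or, not_lt, not_le] at hn
      rcases hn with hn | hn
      · apply kk_left
        exact Real.log_nonpos (by positivity) (by rw [div_le_one hρ]; exact hn)
      · apply kk_right
        rw [Real.le_log_iff_exp_le (by positivity), le_div_iff₀ hρ, mul_comm]
        exact hn.le
    have step3 : ∫⁻ r in Ioi (0:ℝ), ENNReal.ofReal (Real.pi * (kk l (Real.log (r / ρ)) * r⁻¹))
        ≤ ∫⁻ r in Ioc ρ (ρ * Real.exp l),
          ENNReal.ofReal (Real.pi * (kk l (Real.log (r / ρ)) * r⁻¹)) := by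
      rw [← lintegral_indicator measurableSet_Ioi, ← lintegral_indicator measurableSet_Ioc]
      apply lintegral_mono
      intro r
      by_cases h1 : r ∈ Ioi (0:ℝ)
      · by_cases h2 : r ∈ Ioc ρ (ρ * Real.exp l)
        · rw [Set.indicator_of_mem h1, Set.indicator_of_mem h2]
        · rw [Set.indicator_of_mem h1, hzero r h1 h2]
          simp
      · rw [Set.indicator_of_notMem h1]
        exact zero_le
    refine step3.trans ?_
    have hco : ContinuousOn (fun r => Real.pi * (kk l (Real.log (r / ρ)) * r⁻¹))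
        (Icc ρ (ρ * Real.exp l)) := by
      apply continuousOn_const.mul
      apply ContinuousOn.mul
      · apply (kk_cont l).comp_continuousOn
        apply ContinuousOn.log
        · exact continuousOn_id.div_const ρ
        · intro r hr
          have := hpos r hr
          positivity
      · exact continuousOn_id.inv₀ (fun r hr => (hpos r hr).ne')
    have hint : ∫ r in ρ..(ρ * Real.exp l), Real.pi * (kk l (Real.log (r / ρ)) * r⁻¹) =
        Real.pi * HH l l := by
      rw [intervalIntegral.integral_const_mul]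
      rw [intervalIntegral.integral_eq_sub_of_hasDerivAt (f := fun r => HH l (Real.log (r / ρ)))]
      · rw [mul_div_cancel_left₀ _ hρ.ne', Real.log_exp, div_self hρ.ne', Real.log_one,
          HH_left le_rfl, sub_zero]
      · intro r hr
        rw [uIcc_of_le hle] at hr
        have hr0 := hpos r hr
        have h3 : HasDerivAt (fun t : ℝ => Real.log (t / ρ)) r⁻¹ r := by
          have h4 := (Real.hasDerivAt_log (x := r / ρ) (by positivity)).comp r
            ((hasDerivAt_id r).div_const ρ)
          refine h4.congr_deriv ?_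
          field_simp
        exact (HH_deriv l _).comp _ h3
      · have h5 : ContinuousOn (fun r => kk l (Real.log (r / ρ)) * r⁻¹)
            (Icc ρ (ρ * Real.exp l)) := by
          apply ContinuousOn.mul
          · apply (kk_cont l).comp_continuousOn
            apply ContinuousOn.log
            · exact continuousOn_id.div_const ρ
            · intro r hr
              have := hpos r hr
              positivity
          · exact continuousOn_id.inv₀ (fun r hr => (hpos r hr).ne')
        exact (h5.mono (by rw [uIcc_of_le hle])).intervalIntegrable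
    rw [← hint, intervalIntegral.integral_of_le hle, ofReal_integral_eq_lintegral_ofReal]
    · exact (hco.integrableOn_Icc).mono_set Ioc_subset_Icc_self
    · refine (ae_restrict_iff' measurableSet_Ioc).mpr (Filter.Eventually.of_forall ?_)
      intro r hr
      have hr0 : 0 < r := hρ.trans hr.1
      exact mul_nonneg (by positivity) (mul_nonneg (kk_nonneg _ _) (by positivity))

theorem log16 : Real.log 16 ≤ 3 := by
  rw [Real.log_le_iff_le_exp (by norm_num)]
  have h1 := Real.exp_one_gt_d9
  have h2 : Real.exp 3 = Real.exp 1 ^ 3 := by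
    rw [← Real.exp_nat_mul]
    norm_num
  rw [h2]
  have h3 : (2.7:ℝ) ^ 3 ≤ Real.exp 1 ^ 3 := pow_le_pow_left₀ (by norm_num) (by linarith) 3
  have h4 : (16:ℝ) ≤ 2.7 ^ 3 := by norm_num
  linarith

/-- one side -/
theorem side {ε : ℝ} {K : Set ℂ} {z : ℂ} {d ρ : ℝ} (h : GoodH ε K z d ρ) :
    ∃ (P : ℂ → ℝ) (W : ℝ) (a : ℂ), ContDiff ℝ 1 P ∧ 0 ≤ W ∧ Real.log (d / ρ) - 5 ≤ W ∧
      dist z a ≤ d / 16 ∧ (∀ x ∈ K, P x = 0) ∧ (∀ x, d / 8 ≤ dist x a → P x = W) ∧
      (∀ x, d / 8 ≤ dist x a → fderiv ℝ P x = 0) ∧ energyH P ≤ ENNReal.ofReal (Real.pi * W) := by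
  have hρ := h.size.pos
  have hρd := h.size.le
  have hd : 0 < d := hρ.trans_le hρd
  have hl16 := log16
  rcases lt_or_ge ρ (d / 16) with hs | hs
  · have hne : ρ ≠ d := by
      intro he
      linarith
    obtain ⟨a, ha, -⟩ := h.base.resolve_left hne
    have hbd := h.size.bd.resolve_left hne
    have h2ρ : 0 < 2 * ρ := by linarith
    obtain ⟨l, hl⟩ : ∃ l : ℝ, l = Real.log (d / (16 * ρ)) := ⟨_, rfl⟩
    have hexp : 2 * ρ * Real.exp l = d / 8 := by
      rw [hl, Real.exp_log (by positivity)]
      field_simp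
      ring
    refine ⟨Ph (a : ℂ) (2 * ρ) l, HH l l, (a : ℂ), Ph_contDiff _ h2ρ l, HH_nonneg l, ?_,
      ha.trans hs.le, ?_, ?_, ?_, Ph_energyH a h2ρ l⟩
    · have h1 := HH_tot l
      have h2 : l = Real.log (d / ρ) - Real.log 16 := by
        rw [hl, mul_comm 16 ρ, ← div_div, Real.log_div (by positivity) (by norm_num)]
      linarith
    · intro x hx
      apply Ph_zero h2ρ
      rw [← dist_eq_norm]
      have h1 := Metric.mem_closedBall.mp (hbd hx)
      have h2 := dist_triangle x z (a : ℂ)
      linarith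
    · intro x hx
      apply Ph_tot h2ρ
      rw [hexp, ← dist_eq_norm]
      exact hx
    · intro x hx
      apply Ph_fderiv_zero _ h2ρ
      rw [hexp, ← dist_eq_norm]
      exact hx
  · refine ⟨fun _ => 0, 0, z, contDiff_const, le_rfl, ?_, by rw [dist_self]; positivity,
      fun _ _ => rfl, fun _ _ => rfl, ?_, ?_⟩
    · have h1 : Real.log (d / ρ) ≤ Real.log 16 := by
        apply Real.log_le_log (by positivity)
        rw [div_le_iff₀ hρ]
        linarith
      linarith
    · intro x _
      exact fderiv_const_apply _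
    · unfold energyH
      simp

/-- job QH-TE -/
theorem te : S_TE := by
  intro ε K L z w ρ σ hK hL hKL
  obtain ⟨d, hd⟩ : ∃ d : ℝ, d = dist z w := ⟨_, rfl⟩
  rw [← hd] at hK hL hKL ⊢
  have hd0 : 0 < d := hK.size.pos.trans_le hK.size.le
  obtain ⟨P1, W1, a, c1, hW1, hl1, ha, p1, p2, p3, p4⟩ := side hK
  obtain ⟨P2, W2, b, c2, hW2, hl2, hb, q1, q2, q3, q4⟩ := side hL
  refine ⟨W1 + W2, by linarith, by linarith, fun hW => ?_⟩
  obtain ⟨W, hWW⟩ : ∃ W, W = W1 + W2 := ⟨_, rfl⟩
  rw [← hWW] at hW ⊢
  have hpi := Real.pi_pos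
  have hzK := hK.size.mem
  have hwL := hL.size.mem
  refine ⟨fun x => W⁻¹ * (P1 x + W2 - P2 x), ?_, ?_, ?_, ?_⟩
  · exact contDiff_const.mul ((c1.add contDiff_const).sub c2)
  · intro x hx
    have h1 := hKL x hx w hwL
    have h2 := dist_triangle x b w
    rw [dist_comm b w] at h2
    simp only [p1 x hx, q2 x (by linarith)]
    ring
  · intro x hx
    have h1 := hKL z hzK x hx
    have h2 := dist_triangle z a x
    rw [dist_comm a x] at h2
    simp only [q1 x hx, p2 x (by linarith), sub_zero, ← hWW]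
    exact inv_mul_cancel₀ hW.ne'
  · have hder : ∀ x, ‖fderiv ℝ (fun x => W⁻¹ * (P1 x + W2 - P2 x)) x‖ ^ 2 ≤
        (W⁻¹) ^ 2 * (‖fderiv ℝ P1 x‖ ^ 2 + ‖fderiv ℝ P2 x‖ ^ 2) := by
      intro x
      have d1 := ((c1.differentiable one_ne_zero) x).hasFDerivAt
      have d2 := ((c2.differentiable one_ne_zero) x).hasFDerivAt
      have d3 := ((d1.add_const W2).fun_sub d2).const_mul W⁻¹
      rw [d3.fderiv, norm_smul, mul_pow, Real.norm_eq_abs, sq_abs]
      apply mul_le_mul_of_nonneg_left _ (sq_nonneg _)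
      rcases le_or_gt (d / 8) (dist x a) with h | h
      · rw [p3 x h]
        simp
      · have h' : d / 8 ≤ dist x b := by
          have e1 := dist_triangle4 z a x b
          have e2 := dist_triangle z b w
          rw [dist_comm b w] at e2
          rw [dist_comm a x] at e1
          linarith
        rw [q3 x h']
        simp
    have m1 : Measurable (fun x => ENNReal.ofReal (‖fderiv ℝ P1 x‖ ^ 2)) :=
      ((dens_cont c1).pow 2).measurable.ennreal_ofReal
    have m2 : Measurable (fun x => ENNReal.ofReal (‖fderiv ℝ P2 x‖ ^ 2)) :=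
      ((dens_cont c2).pow 2).measurable.ennreal_ofReal
    calc energyH (fun x => W⁻¹ * (P1 x + W2 - P2 x))
        ≤ ∫⁻ x in {z : ℂ | 0 < z.im}, ENNReal.ofReal ((W⁻¹) ^ 2) *
            (ENNReal.ofReal (‖fderiv ℝ P1 x‖ ^ 2) + ENNReal.ofReal (‖fderiv ℝ P2 x‖ ^ 2)) := by
          apply lintegral_mono
          intro x
          simp only
          rw [← ENNReal.ofReal_add (sq_nonneg _) (sq_nonneg _),
            ← ENNReal.ofReal_mul (sq_nonneg _)]
          exact ENNReal.ofReal_le_ofReal (hder x)
      _ = ENNReal.ofReal ((W⁻¹) ^ 2) * (energyH P1 + energyH P2) := by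
          have m3 : Measurable (fun x => ENNReal.ofReal (‖fderiv ℝ P1 x‖ ^ 2) +
            ENNReal.ofReal (‖fderiv ℝ P2 x‖ ^ 2)) := m1.add m2
          rw [lintegral_const_mul _ m3, lintegral_add_left m1]
          rfl
      _ ≤ ENNReal.ofReal ((W⁻¹) ^ 2) * (ENNReal.ofReal (Real.pi * W1) +
            ENNReal.ofReal (Real.pi * W2)) := by
          gcongr
      _ = ENNReal.ofReal (Real.pi / W) := by
          rw [← ENNReal.ofReal_add (mul_nonneg hpi.le hW1)
            (mul_nonneg hpi.le hW2), ← ENNReal.ofReal_mul (sq_nonneg _)]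
          congr 1
          rw [← mul_add, ← hWW]
          field_simp

end Pool.Agent.Y991.QH
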